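import Pool.Agent.Helper75.PX.Stmts

/-! Project PX, row SC4: scaling of the generators in degree four. -/

set_option autoImplicit false

universe u

namespace Pool.Agent.Helper75.PX

theorem SC4_uE {K A : Type u} [Field K] [Ring A] [Algebra K A] (α β : A) (v : Fin 4 → K)
    (l m : K) (hl : l ≠ 0) (hm : m ≠ 0) :
    uE (m ^ 2 • α) (l ^ 2 • β) ![v 0, v 1 / m ^ 2, v 2 / l ^ 2, v 3 / (l ^ 2 * m ^ 2)] =
      uE α β v := by
  have hl2 : l ^ 2 ≠ 0 := pow_ne_zero 2 hl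
  have hm2 : m ^ 2 ≠ 0 := pow_ne_zero 2 hm
  show v 0 • (1 : A) + (v 1 / m ^ 2) • (m ^ 2 • α) + (v 2 / l ^ 2) • (l ^ 2 • β) +
    (v 3 / (l ^ 2 * m ^ 2)) • ((m ^ 2 • α) * (l ^ 2 • β)) =
    v 0 • (1 : A) + v 1 • α + v 2 • β + v 3 • (α * β)
  have h1 : v 1 / m ^ 2 * m ^ 2 = v 1 := div_mul_cancel₀ _ hm2
  have h2 : v 2 / l ^ 2 * l ^ 2 = v 2 := div_mul_cancel₀ _ hl2
  have h3 : v 3 / (l ^ 2 * m ^ 2) * (m ^ 2 * l ^ 2) = v 3 := by
    rw [mul_comm (m ^ 2) (l ^ 2)]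
    exact div_mul_cancel₀ _ (mul_ne_zero hl2 hm2)
  rw [smul_mul_smul_comm, smul_smul, smul_smul, smul_smul, h1, h2, h3]

theorem st_SC4 : ST_SC4.{u} := by
  intro K A _ _ _ α β z w a b p r v l m hl hm h
  have key : ∀ (c d e : K) (x y t : A), x * y = t → c * d = e →
      (c • x) * (d • y) = e • t := by
    intro c d e x y t h1 h2
    rw [smul_mul_smul_comm, h1, h2]
  constructor
  · rw [key (m ^ 2) (m ^ 2) (m ^ 4) α α _ h.haa (by ring), map_mul, Algebra.smul_def]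
  · rw [key (l ^ 2) (l ^ 2) (l ^ 4) β β _ h.hbb (by ring), map_mul, Algebra.smul_def]
  · rw [key (m ^ 2) (l ^ 2) (l ^ 2 * m ^ 2) α β _ h.hab (by ring),
      key (l ^ 2) (m ^ 2) (l ^ 2 * m ^ 2) β α _ rfl rfl]
  · rw [key l (m ^ 2) (l * m ^ 2) z α _ h.hza rfl,
      key (m ^ 2) l (l * m ^ 2) α z _ rfl (by ring), smul_neg]
  · rw [key l (l ^ 2) (l ^ 3) z β _ h.hzb (by ring),
      key (l ^ 2) l (l ^ 3) β z _ rfl (by ring)]
  · rw [key m (m ^ 2) (m ^ 3) w α _ h.hwa (by ring),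
      key (m ^ 2) m (m ^ 3) α w _ rfl (by ring)]
  · rw [key m (l ^ 2) (m * l ^ 2) w β _ h.hwb rfl,
      key (l ^ 2) m (m * l ^ 2) β w _ rfl (by ring), smul_neg]
  · rw [key l l (l ^ 2) z z _ h.hzz (by ring), map_mul, smul_add, Algebra.smul_def]
  · rw [key m m (m ^ 2) w w _ h.hww (by ring), map_mul, smul_add, Algebra.smul_def]
  · rw [SC4_uE α β v l m hl hm, key l m (l * m) z w _ h.hzw rfl,
      key m l (l * m) w z _ rfl (by ring), mul_smul_comm]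
  · exact mul_ne_zero (pow_ne_zero 4 hm) h.a0
  · exact mul_ne_zero (pow_ne_zero 4 hl) h.b0
  · rw [Algebra.smul_def]
    exact ((IsUnit.mk0 l hl).map (algebraMap K A)).mul h.uz
  · rw [Algebra.smul_def]
    exact ((IsUnit.mk0 m hm).map (algebraMap K A)).mul h.uw

end Pool.Agent.Helper75.PX
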