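import Pool.Agent.Helper75.PX.Stmts6

/-! Project PX, row SC4b: scaling of the generators in degree four, characteristic two. -/

set_option autoImplicit false

universe u

namespace Pool.Agent.Helper75.PX

theorem st_SC4b : ST_SC4b.{u} := by
  intro K A _ _ _ α β z w a b p r v l m hl hm h
  constructor
  · exact h.haa
  · exact h.hbb
  · exact h.hab
  · rw [smul_mul_assoc, h.hza, mul_smul_comm]
  · rw [smul_mul_assoc, h.hzb, mul_smul_comm]
  · rw [smul_mul_assoc, h.hwa, mul_smul_comm]
  · rw [smul_mul_assoc, h.hwb, mul_smul_comm]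
  · rw [smul_mul_smul_comm, h.hzz, smul_smul]
    congr 1
    ring
  · rw [smul_mul_smul_comm, h.hww, smul_smul]
    congr 1
    ring
  · rw [smul_mul_smul_comm, h.hzw, smul_mul_smul_comm, mul_smul_comm, mul_comm l m]
  · exact h.a0
  · exact h.b0
  · exact mul_ne_zero h.p0 (pow_ne_zero 2 hl)
  · exact mul_ne_zero h.r0 (pow_ne_zero 2 hm)

end Pool.Agent.Helper75.PX
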